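import Mathlib
import Pool.Agent.Helper38.Dml.ArithAt
import Pool.Agent.Helper38.Dml.DvrLe
import Pool.Agent.Helper38.Dml.PadicExt

/-!
# General coefficients
-/

set_option autoImplicit false

open Function

namespace Pool.Agent.Helper38.Sym

open Pool.Agent.Helper37 Pool.Agent.Helper38.Dml

/-- The return set of every family of forms along the orbit of `a` is a finite union of
progressions. -/
def DMLgen {L : Type*} [Field L] {m : ℕ} (F : Fin m → MvPolynomial (Fin m) L) (a : Fin m → L) :
    Prop :=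
  ∀ S : Set (MvPolynomial (Fin m) L), (∀ g ∈ S, ∃ e : ℕ, g.IsHomogeneous e) →
    ∃ T : Finset (ℕ × ℕ),
      {n : ℕ | ∀ g ∈ S, MvPolynomial.eval ((fun (x : Fin m → L) (i : Fin m) =>
          MvPolynomial.eval x (F i))^[n] a) g = 0}
        = {n : ℕ | ∃ q ∈ T, ∃ k : ℕ, n = q.1 * k + q.2}

theorem map_eval_gen {R S : Type*} [CommRing R] [CommRing S] (φ : R →+* S) {m : ℕ}
    (x : Fin m → R) (P : MvPolynomial (Fin m) R) :
    φ (MvPolynomial.eval x P) = MvPolynomial.eval (fun i => φ (x i)) (MvPolynomial.map φ P) := by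
  rw [MvPolynomial.eval_map]
  have h := MvPolynomial.eval₂_comp_left φ (RingHom.id R) x P
  rw [RingHom.comp_id] at h
  exact h

theorem dml_dvr_general {m d : ℕ} (p : ℕ) (hp : p.Prime)
    {R : Type*} [CommRing R] [IsDomain R] [CharZero R] [IsDiscreteValuationRing R]
    (hpR : (p : R) ∈ IsLocalRing.maximalIdeal R)
    [Finite (IsLocalRing.ResidueField R)]
    {E : Type*} [Field E] [Finite E]
    (φ : R →+* E) (hφ : ∀ r, φ r ≠ 0 → IsUnit r)
    (GR : Fin m → MvPolynomial (Fin m) R) (hF : ∀ i, (GR i).IsHomogeneous d) (b : Fin m → R)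
    (hG : GoodAt (fun i => MvPolynomial.map φ (GR i)) (fun i => φ (b i)))
    {L : Type*} [Field L] [Algebra R L] (hRL : Function.Injective (algebraMap R L))
    (c : L) (hc : c ≠ 0) :
    DMLgen (fun i => MvPolynomial.map (algebraMap R L) (GR i))
      (fun i => c * algebraMap R L (b i)) := by
  classical
  intro S hS
  set g : Fin m → MvPolynomial (Fin m) E := fun i => MvPolynomial.map φ (GR i) with hg
  -- reduction
  have hred : ∀ x : Fin m → R, (fun i => φ (step GR x i)) = pmap g (fun i => φ (x i)) := by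
    intro x
    funext i
    simp only [step, pmap, hg]
    rw [MvPolynomial.aeval_eq_eval]
    exact map_eval_gen φ x _
  set x : ℕ → Fin m → R := fun n => (step GR)^[n] b with hx
  have hxs : ∀ n, x (n + 1) = step GR (x n) := by
    intro n
    simp only [hx, iterate_succ_apply']
  set y : ℕ → Fin m → E := fun n i => φ (x n i) with hy
  have hys : ∀ n, y (n + 1) = pmap g (y n) := by
    intro n
    simp only [hy, hxs]
    exact hred (x n)
  have hyit : ∀ n, y n = (pmap g)^[n] (fun i => φ (b i)) := by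
    intro n
    induction n with
    | zero => rfl
    | succ n ih => rw [hys, ih, iterate_succ_apply']
  obtain ⟨n₁, hn₁⟩ := exists_iterate_mem_periodicPts (pmap g) (fun i => φ (b i))
  -- unit Jacobians
  have hjac : ∀ n, IsUnit (jac GR ((step GR)^[n] (x n₁))).det := by
    intro n
    have h1 : (step GR)^[n] (x n₁) = x (n + n₁) := by
      simp only [hx, ← iterate_add_apply]
    rw [h1]
    apply hφ
    rw [RingHom.map_det]
    have h2 : φ.mapMatrix (jac GR (x (n + n₁))) = pjac g (y (n + n₁)) := by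
      ext i j
      rw [RingHom.mapMatrix_apply, Matrix.map_apply]
      simp only [jac, pjac, Matrix.of_apply, hg]
      rw [MvPolynomial.pderiv_map]
      exact map_eval_gen φ _ _
    rw [h2, hyit]
    exact (hG _).2 (hn₁ _ (by omega))
  obtain ⟨T, hT⟩ := returnSet_progressions p hp hpR hRL GR (x n₁) hjac S
  -- comparison of the two orbits
  set X : ℕ → Fin m → L := fun n => (fun (x : Fin m → L) (i : Fin m) =>
          MvPolynomial.eval x (MvPolynomial.map (algebraMap R L) (GR i)))^[n]
            (fun i => c * algebraMap R L (b i)) with hX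
  have hXs : ∀ n, X (n + 1) = fun i =>
      MvPolynomial.eval (X n) (MvPolynomial.map (algebraMap R L) (GR i)) := by
    intro n
    simp only [hX, iterate_succ_apply']
  have hprop : ∀ n, ∃ s : L, s ≠ 0 ∧ (fun i => algebraMap R L (x n i)) = s • X n := by
    intro n
    induction n with
    | zero =>
      refine ⟨c⁻¹, inv_ne_zero hc, ?_⟩
      funext i
      simp only [hX, hx, iterate_zero, id, Pi.smul_apply, smul_eq_mul]
      rw [inv_mul_cancel_left₀ hc]
    | succ n ih =>
      obtain ⟨s, hs, ih⟩ := ih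
      refine ⟨s ^ d, pow_ne_zero _ hs, ?_⟩
      funext i
      rw [hxs, hXs]
      simp only [step, Pi.smul_apply, smul_eq_mul]
      rw [MvPolynomial.aeval_eq_eval]
      change algebraMap R L (MvPolynomial.eval (x n) _) = _
      rw [map_eval_gen (algebraMap R L), ih, eval_smul_of_homog ((hF i).map _)]
  have hiff : ∀ n, (∀ g ∈ S, MvPolynomial.eval (X n) g = 0)
      ↔ (∀ g ∈ S, MvPolynomial.eval (fun i => algebraMap R L (x n i)) g = 0) := by
    intro n
    obtain ⟨s, hs, h⟩ := hprop n
    rw [h]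
    constructor
    · intro h1 g hg
      obtain ⟨e, he⟩ := hS g hg
      rw [eval_smul_of_homog he, h1 g hg, mul_zero]
    · intro h1 g hg
      obtain ⟨e, he⟩ := hS g hg
      have h2 := h1 g hg
      rw [eval_smul_of_homog he] at h2
      exact (mul_eq_zero.1 h2).resolve_left (pow_ne_zero _ hs)
  refine ⟨((Finset.range n₁).filter (fun n => ∀ g ∈ S, MvPolynomial.eval (X n) g = 0)).image
    (fun n => (0, n)) ∪ T.image (fun q => (q.1, q.2 + n₁)), ?_⟩
  have hT' : ∀ n, (∀ g ∈ S, MvPolynomial.eval (X (n + n₁)) g = 0)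
      ↔ ∃ q ∈ T, ∃ m : ℕ, n = q.1 * m + q.2 := by
    intro n
    have h1 := Set.ext_iff.1 hT n
    simp only [Set.mem_ofPred_eq] at h1
    rw [← h1, hiff]
    have h2 : (step GR)^[n] (x n₁) = x (n + n₁) := by
      simp only [hx, ← iterate_add_apply]
    rw [h2]
  ext n
  simp only [Set.mem_ofPred_eq, Finset.mem_union, Finset.mem_image, Finset.mem_filter,
    Finset.mem_range]
  constructor
  · intro h
    by_cases hn : n < n₁
    · exact ⟨(0, n), Or.inl ⟨n, ⟨hn, h⟩, rfl⟩, 0, by simp⟩
    · obtain ⟨l, rfl⟩ := Nat.exists_eq_add_of_le' (not_lt.1 hn)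
      obtain ⟨q, hq, j, hj⟩ := (hT' l).1 h
      exact ⟨(q.1, q.2 + n₁), Or.inr ⟨q, hq, rfl⟩, j, by simp only; omega⟩
  · rintro ⟨q, (⟨l, ⟨_, hl⟩, rfl⟩ | ⟨q', hq', rfl⟩), j, hj⟩
    · simp only [zero_mul, zero_add] at hj
      rw [hj]
      exact hl
    · simp only at hj
      have h1 := (hT' (q'.1 * j + q'.2)).2 ⟨q', hq', j, rfl⟩
      rw [hj, ← add_assoc]
      exact h1

end Pool.Agent.Helper38.Sym
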