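import Mathlib
import Pool.Agent.Helper38.Dml.Good

/-!
# Symmetric powers of the map `s ↦ 1 + b s⁻ᵈ`
-/

set_option autoImplicit false

open Polynomial Finset Function

namespace Pool.Agent.Helper38.Sym

section ring

variable {R : Type*} [CommRing R] {N : ℕ}

/-- the polynomial with given coefficients -/
noncomputable def pol (y : Fin (N + 1) → R) : R[X] := ∑ j : Fin (N + 1), C (y j) * X ^ (j : ℕ)

theorem pol_coeff_fin (y : Fin (N + 1) → R) (j : Fin (N + 1)) : (pol y).coeff j = y j := by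
  rw [pol, finsetSum_coeff, Finset.sum_eq_single j]
  · simp
  · intro i _ hi
    rw [coeff_C_mul, coeff_X_pow, if_neg (fun h => hi (Fin.ext h.symm)), mul_zero]
  · intro h
    exact absurd (mem_univ _) h

theorem pol_coeff_lt (y : Fin (N + 1) → R) {n : ℕ} (h : n < N + 1) :
    (pol y).coeff n = y ⟨n, h⟩ := pol_coeff_fin y ⟨n, h⟩

theorem pol_coeff_ge (y : Fin (N + 1) → R) {n : ℕ} (h : N < n) : (pol y).coeff n = 0 := by
  rw [pol, finsetSum_coeff]
  apply Finset.sum_eq_zero
  intro i _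
  rw [coeff_C_mul, coeff_X_pow, if_neg (by have := i.2; omega), mul_zero]

theorem pol_natDegree_le (y : Fin (N + 1) → R) : (pol y).natDegree ≤ N := by
  rw [natDegree_le_iff_coeff_eq_zero]
  intro n hn
  exact pol_coeff_ge y hn

theorem pol_ext {y y' : Fin (N + 1) → R} (h : pol y = pol y') : y = y' := by
  funext j
  rw [← pol_coeff_fin y, ← pol_coeff_fin y', h]

theorem pol_zero : pol (0 : Fin (N + 1) → R) = 0 := by
  simp [pol]

theorem pol_ne_zero {y : Fin (N + 1) → R} (h : y ≠ 0) : pol y ≠ 0 := by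
  intro h0
  exact h (pol_ext (by rw [h0, pol_zero]))

theorem pol_map {S : Type*} [CommRing S] (φ : R →+* S) (y : Fin (N + 1) → R) :
    (pol y).map φ = pol (fun j => φ (y j)) := by
  simp [pol, Polynomial.map_sum]

theorem eq_pol {g : R[X]} (h : g.natDegree ≤ N) : g = pol (fun j : Fin (N + 1) => g.coeff j) := by
  ext n
  rcases Nat.lt_or_ge N n with hn | hn
  · rw [pol_coeff_ge _ hn, coeff_eq_zero_of_natDegree_lt (lt_of_le_of_lt h hn)]
  · rw [pol_coeff_lt _ (Nat.lt_succ_of_le hn)]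

/-- twisting by a power of `ω` -/
def tw (ω : R) (i : ℕ) (y : Fin (N + 1) → R) : Fin (N + 1) → R := fun j => y j * (ω ^ i) ^ (j : ℕ)

theorem pol_tw (ω : R) (i : ℕ) (y : Fin (N + 1) → R) :
    pol (tw ω i y) = (pol y).comp (C (ω ^ i) * X) := by
  ext n
  rw [comp_C_mul_X_coeff]
  rcases Nat.lt_or_ge N n with hn | hn
  · rw [pol_coeff_ge _ hn, pol_coeff_ge _ hn, zero_mul]
  · rw [pol_coeff_lt _ (Nat.lt_succ_of_le hn), pol_coeff_lt _ (Nat.lt_succ_of_le hn), tw]

/-- the product of the twists -/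
noncomputable def Qp (d : ℕ) (ω : R) (y : Fin (N + 1) → R) : R[X] :=
  ∏ i ∈ range d, pol (tw ω i y)

/-- the coefficients of the power map -/
noncomputable def Pc (d : ℕ) (ω : R) (y : Fin (N + 1) → R) : Fin (N + 1) → R :=
  fun j => (Qp d ω y).coeff (d * j)

theorem Qp_map {S : Type*} [CommRing S] (φ : R →+* S) (d : ℕ) (ω : R) (y : Fin (N + 1) → R) :
    (Qp d ω y).map φ = Qp d (φ ω) (fun j => φ (y j)) := by
  rw [Qp, Qp, Polynomial.map_prod]
  apply Finset.prod_congr rfl
  intro i _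
  rw [pol_map]
  congr 1
  funext j
  simp [tw]

theorem Pc_map {S : Type*} [CommRing S] (φ : R →+* S) (d : ℕ) (ω : R) (y : Fin (N + 1) → R)
    (j : Fin (N + 1)) : φ (Pc d ω y j) = Pc d (φ ω) (fun j => φ (y j)) j := by
  rw [Pc, Pc, ← Qp_map, coeff_map]

theorem Qp_eval (d : ℕ) (ω : R) (y : Fin (N + 1) → R) (s : R) :
    (Qp d ω y).eval s = ∏ i ∈ range d, (pol y).eval (ω ^ i * s) := by
  rw [Qp, eval_prod]
  apply Finset.prod_congr rfl
  intro i _
  rw [pol_tw, eval_comp]
  simp

theorem Qp_comp (d : ℕ) {ω : R} (hω : ω ^ d = 1) (y : Fin (N + 1) → R) :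
    (Qp d ω y).comp (C ω * X) = Qp d ω y := by
  have h1 : ∀ i, (pol (tw ω i y)).comp (C ω * X) = pol (tw ω (i + 1) y) := by
    intro i
    rw [pol_tw, pol_tw, Polynomial.comp_assoc]
    congr 1
    simp only [mul_comp, C_comp, X_comp]
    rw [← mul_assoc, ← C_mul, pow_succ]
  rw [Qp, Polynomial.prod_comp]
  simp only [h1]
  cases d with
  | zero => simp
  | succ e =>
    rw [Finset.prod_range_succ, Finset.prod_range_succ' (fun i => pol (tw ω i y))]
    congr 2
    funext j
    simp only [tw, hω, pow_zero]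

theorem Qp_natDegree_le (d : ℕ) (ω : R) (y : Fin (N + 1) → R) :
    (Qp d ω y).natDegree ≤ d * N := by
  refine (natDegree_prod_le _ _).trans ?_
  calc ∑ i ∈ range d, (pol (tw ω i y)).natDegree ≤ ∑ i ∈ range d, N :=
        Finset.sum_le_sum fun i _ => pol_natDegree_le _
    _ = d * N := by rw [Finset.sum_const, card_range, smul_eq_mul]

theorem Qp_coeff_eq_zero [IsDomain R] {d : ℕ} {ω : R} (hω : IsPrimitiveRoot ω d)
    (y : Fin (N + 1) → R) {n : ℕ} (hn : ¬ d ∣ n) : (Qp d ω y).coeff n = 0 := by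
  have h1 := congrArg (fun g => g.coeff n) (Qp_comp d hω.pow_eq_one y)
  simp only [comp_C_mul_X_coeff] at h1
  have h2 : (Qp d ω y).coeff n * (ω ^ n - 1) = 0 := by rw [mul_sub, h1]; ring
  rcases mul_eq_zero.1 h2 with h | h
  · exact h
  · exact absurd ((hω.pow_eq_one_iff_dvd n).1 (sub_eq_zero.1 h)) hn

theorem Qp_eq_expand [IsDomain R] {d : ℕ} (hd : 0 < d) {ω : R} (hω : IsPrimitiveRoot ω d)
    (y : Fin (N + 1) → R) : Qp d ω y = expand R d (pol (Pc d ω y)) := by
  ext n
  rw [coeff_expand hd]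
  split_ifs with h
  · obtain ⟨m, rfl⟩ := h
    rw [Nat.mul_div_cancel_left _ hd]
    rcases Nat.lt_or_ge N m with hm | hm
    · rw [pol_coeff_ge _ hm]
      apply coeff_eq_zero_of_natDegree_lt
      exact lt_of_le_of_lt (Qp_natDegree_le d ω y) (Nat.mul_lt_mul_of_pos_left hm hd)
    · rw [pol_coeff_lt _ (Nat.lt_succ_of_le hm), Pc]
  · exact Qp_coeff_eq_zero hω y h

theorem eval_Pc [IsDomain R] {d : ℕ} (hd : 0 < d) {ω : R} (hω : IsPrimitiveRoot ω d)
    (y : Fin (N + 1) → R) (s : R) :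
    (pol (Pc d ω y)).eval (s ^ d) = ∏ i ∈ range d, (pol y).eval (ω ^ i * s) := by
  rw [← Qp_eval, Qp_eq_expand hd hω, expand_eval]

/-! ### the linear part -/

/-- the matrix of the substitution `(X, Y) ↦ (b Y, X - Y)` on binary forms -/
noncomputable def lam (N : ℕ) (b : R) (i j : Fin (N + 1)) : R :=
  (C b ^ (j : ℕ) * (X - 1) ^ (N - (j : ℕ)) : R[X]).coeff i

/-- the substitution on coefficient vectors -/
noncomputable def Lam (b : R) (p : Fin (N + 1) → R) : Fin (N + 1) → R :=
  fun i => ∑ j, lam N b i j * p j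

theorem natDegree_term (b : R) (j : ℕ) (hj : j ≤ N) :
    (C b ^ j * (X - 1) ^ (N - j) : R[X]).natDegree ≤ N := by
  rw [← C_pow]
  refine (natDegree_C_mul_le _ _).trans ?_
  refine natDegree_pow_le.trans ?_
  have h1 : (X - 1 : R[X]).natDegree ≤ 1 := by
    rw [← C_1]
    exact natDegree_X_sub_C_le _
  calc (N - j) * (X - 1 : R[X]).natDegree ≤ (N - j) * 1 := Nat.mul_le_mul_left _ h1
    _ ≤ N := by omega

theorem pol_Lam (b : R) (p : Fin (N + 1) → R) :
    pol (Lam b p) = ∑ j : Fin (N + 1), C (p j) * (C b ^ (j : ℕ) * (X - 1) ^ (N - (j : ℕ))) := by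
  ext n
  rw [finsetSum_coeff]
  simp only [coeff_C_mul]
  rcases Nat.lt_or_ge N n with hn | hn
  · rw [pol_coeff_ge _ hn]
    symm
    apply Finset.sum_eq_zero
    intro j _
    rw [coeff_eq_zero_of_natDegree_lt (lt_of_le_of_lt
      (natDegree_term b j (Nat.lt_succ_iff.1 j.2)) hn), mul_zero]
  · rw [pol_coeff_lt _ (Nat.lt_succ_of_le hn), Lam]
    apply Finset.sum_congr rfl
    intro j _
    rw [lam, mul_comm]

theorem Lam_last (b : R) (p : Fin (N + 1) → R) : Lam b p (Fin.last N) = p 0 := by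
  rw [Lam, Finset.sum_eq_single 0]
  · have h1 : (X - 1 : R[X]) ^ N = (X - C 1) ^ N := by rw [C_1]
    have h2 : lam N b (Fin.last N) 0 = 1 := by
      rw [lam]
      simp only [Fin.coe_ofNat_eq_mod, Nat.zero_mod, pow_zero, one_mul, Nat.sub_zero, Fin.val_last]
      rw [h1]
      rcases subsingleton_or_nontrivial R with hR | hR
      · exact Subsingleton.elim _ _
      · have h3 : ((X - C (1 : R)) ^ N).natDegree = N := by
          rw [(monic_X_sub_C (1 : R)).natDegree_pow, natDegree_X_sub_C, mul_one]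
        have h4 := (monic_X_sub_C (1 : R)).pow N
        rw [Monic, leadingCoeff, h3] at h4
        exact h4
    rw [h2, one_mul]
  · intro j _ hj
    rw [lam, coeff_eq_zero_of_natDegree_lt, zero_mul]
    have hj0 : (j : ℕ) ≠ 0 := fun h => hj (Fin.ext h)
    rw [← C_pow]
    refine lt_of_le_of_lt (natDegree_C_mul_le _ _) ?_
    refine lt_of_le_of_lt natDegree_pow_le ?_
    have h1 : (X - 1 : R[X]).natDegree ≤ 1 := by
      rw [← C_1]
      exact natDegree_X_sub_C_le _
    have hjN := j.2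
    calc (N - (j : ℕ)) * (X - 1 : R[X]).natDegree ≤ (N - j) * 1 := Nat.mul_le_mul_left _ h1
      _ < ((Fin.last N : Fin (N + 1)) : ℕ) := by rw [Fin.val_last]; omega
  · intro h
    exact absurd (mem_univ _) h

theorem eval_Lam (b : R) (p : Fin (N + 1) → R) (x : R) :
    (pol (Lam b p)).eval x = ∑ j : Fin (N + 1), p j * (b ^ (j : ℕ) * (x - 1) ^ (N - (j : ℕ))) := by
  rw [pol_Lam, eval_finsetSum]
  apply Finset.sum_congr rfl
  intro j _
  simp

theorem eval_Lam_one (b : R) (p : Fin (N + 1) → R) :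
    (pol (Lam b p)).eval 1 = p (Fin.last N) * b ^ N := by
  rw [eval_Lam, Finset.sum_eq_single (Fin.last N)]
  · simp
  · intro j _ hj
    have h1 : N - (j : ℕ) ≠ 0 := by
      intro h
      apply hj
      apply Fin.ext
      rw [Fin.val_last]
      have := j.2
      omega
    rw [sub_self, zero_pow h1, mul_zero, mul_zero]
  · intro h
    exact absurd (mem_univ _) h

theorem Lam_injective [IsDomain R] {b : R} (hb : b ≠ 0) {p : Fin (N + 1) → R}
    (h : Lam b p = 0) : p = 0 := by
  have h1 : (pol (Lam b p)).comp (X + 1) = 0 := by rw [h, pol_zero, zero_comp]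
  rw [pol_Lam, Polynomial.sum_comp] at h1
  have h2 : ∀ j : Fin (N + 1),
      (C (p j) * (C b ^ (j : ℕ) * (X - 1) ^ (N - (j : ℕ))) : R[X]).comp (X + 1)
      = C (p j * b ^ (j : ℕ)) * X ^ (N - (j : ℕ)) := by
    intro j
    simp only [mul_comp, C_comp, pow_comp, sub_comp, X_comp, one_comp, add_sub_cancel_right,
      C_mul, C_pow]
    ring
  simp only [h2] at h1
  funext j
  have h3 := congrArg (fun g => g.coeff (N - (j : ℕ))) h1
  simp only [finsetSum_coeff, coeff_C_mul, coeff_X_pow, coeff_zero] at h3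
  rw [Finset.sum_eq_single j] at h3
  · simp only [if_true, mul_one] at h3
    exact (mul_eq_zero.1 h3).resolve_right (pow_ne_zero _ hb)
  · intro i _ hi
    rw [if_neg, mul_zero]
    intro h4
    apply hi
    apply Fin.ext
    have := i.2
    have := j.2
    omega
  · intro h4
    exact absurd (mem_univ _) h4

theorem lam_map {S : Type*} [CommRing S] (φ : R →+* S) (b : R) (i j : Fin (N + 1)) :
    φ (lam N b i j) = lam N (φ b) i j := by
  rw [lam, lam, ← coeff_map]
  simp

/-! ### the forms -/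

/-- the forms defining the symmetric power -/
noncomputable def Fs (N d : ℕ) (ω b : R) (i : Fin (N + 1)) : MvPolynomial (Fin (N + 1)) R :=
  ∑ j, MvPolynomial.C (lam N b i j) * Pc d (MvPolynomial.C ω) MvPolynomial.X j

theorem eval_Fs (d : ℕ) (ω b : R) (y : Fin (N + 1) → R) (i : Fin (N + 1)) :
    MvPolynomial.eval y (Fs N d ω b i) = Lam b (Pc d ω y) i := by
  rw [Fs, Lam, map_sum]
  apply Finset.sum_congr rfl
  intro j _
  rw [map_mul, MvPolynomial.eval_C, Pc_map]
  simp

theorem map_Fs {S : Type*} [CommRing S] (φ : R →+* S) (d : ℕ) (ω b : R) (i : Fin (N + 1)) :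
    MvPolynomial.map φ (Fs N d ω b i) = Fs N d (φ ω) (φ b) i := by
  rw [Fs, Fs, map_sum]
  apply Finset.sum_congr rfl
  intro j _
  rw [map_mul, MvPolynomial.map_C, lam_map, Pc_map]
  simp

theorem pol_tw_homog (ω : R) (i n : ℕ) :
    ((pol (tw (MvPolynomial.C ω) i (MvPolynomial.X : Fin (N + 1) → MvPolynomial (Fin (N + 1)) R))).coeff
      n).IsHomogeneous 1 := by
  rcases Nat.lt_or_ge N n with hn | hn
  · rw [pol_coeff_ge _ hn]
    exact MvPolynomial.isHomogeneous_zero _ _ _
  · rw [pol_coeff_lt _ (Nat.lt_succ_of_le hn), tw, ← map_pow, ← map_pow, mul_comm]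
    exact (MvPolynomial.isHomogeneous_X _ _).C_mul _

theorem prod_homog {ι : Type*} [DecidableEq ι] (s : Finset ι)
    (T : ι → (MvPolynomial (Fin (N + 1)) R)[X]) (hT : ∀ i ∈ s, ∀ n, ((T i).coeff n).IsHomogeneous 1)
    (n : ℕ) : ((∏ i ∈ s, T i).coeff n).IsHomogeneous s.card := by
  induction s using Finset.induction_on generalizing n with
  | empty =>
    rw [Finset.prod_empty, coeff_one, Finset.card_empty]
    split_ifs
    · exact MvPolynomial.isHomogeneous_one _ _
    · exact MvPolynomial.isHomogeneous_zero _ _ _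
  | insert a s ha ih =>
    rw [Finset.prod_insert ha, Finset.card_insert_of_notMem ha, coeff_mul, add_comm s.card 1]
    apply MvPolynomial.IsHomogeneous.sum
    intro x _
    exact (hT a (mem_insert_self _ _) _).mul
      (ih (fun i hi => hT i (mem_insert_of_mem hi)) _)

theorem Fs_homog (d : ℕ) (ω b : R) (i : Fin (N + 1)) : (Fs N d ω b i).IsHomogeneous d := by
  rw [Fs]
  apply MvPolynomial.IsHomogeneous.sum
  intro j _
  apply MvPolynomial.IsHomogeneous.C_mul
  rw [Pc, Qp]
  have h := prod_homog (range d)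
    (fun i => pol (tw (MvPolynomial.C ω) i
      (MvPolynomial.X : Fin (N + 1) → MvPolynomial (Fin (N + 1)) R)))
    (fun i _ n => pol_tw_homog ω i n) (d * j)
  rw [card_range] at h
  exact h

end ring

end Pool.Agent.Helper38.Sym
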