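import Mathlib
import Pool.Agent.Helper38.Dml.ArithAt

/-!
# Descent of the good property
-/

set_option autoImplicit false

open Function Finset

namespace Pool.Agent.Helper38.Sym

open Pool.Agent.Helper38.Dml

theorem eval_map_comp {k K : Type*} [Field k] [Field K] (φ : k →+* K) {m : ℕ} (y : Fin m → k)
    (P : MvPolynomial (Fin m) k) :
    MvPolynomial.eval (fun i => φ (y i)) (MvPolynomial.map φ P) = φ (MvPolynomial.eval y P) := by
  rw [MvPolynomial.eval_map]
  have h := MvPolynomial.eval₂_comp_left φ (RingHom.id k) y P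
  rw [RingHom.comp_id] at h
  exact h.symm

/-- the good property descends -/
theorem goodAt_descend {k K : Type*} [Field k] [Field K] (φ : k →+* K) {m : ℕ}
    (f : Fin m → MvPolynomial (Fin m) k) (y : Fin m → k)
    (h : GoodAt (fun i => MvPolynomial.map φ (f i)) (fun i => φ (y i))) : GoodAt f y := by
  have h1 : ∀ z : Fin m → k, pmap (fun i => MvPolynomial.map φ (f i)) (fun i => φ (z i))
      = fun i => φ (pmap f z i) := by
    intro z
    funext i
    exact eval_map_comp φ z (f i)
  have hit : ∀ n, ∀ z : Fin m → k,
      (pmap (fun i => MvPolynomial.map φ (f i)))^[n] (fun i => φ (z i))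
      = fun i => φ ((pmap f)^[n] z i) := by
    intro n
    induction n with
    | zero => intro z; rfl
    | succ n ih =>
      intro z
      rw [iterate_succ_apply, h1, ih, iterate_succ_apply]
  intro n
  obtain ⟨h2, h3⟩ := h n
  rw [hit n y] at h2 h3
  refine ⟨?_, ?_⟩
  · intro h0
    apply h2
    rw [h0]
    funext i
    simp
  · rintro ⟨r, hr, hper⟩
    have hper' : (pmap f)^[r] ((pmap f)^[n] y) = (pmap f)^[n] y := hper
    have h4 := h3 ⟨r, hr, by
      change (pmap (fun i => MvPolynomial.map φ (f i)))^[r] _ = _
      rw [hit r, hper']⟩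
    have h5 : pjac (fun i => MvPolynomial.map φ (f i)) (fun i => φ ((pmap f)^[n] y i))
        = (pjac f ((pmap f)^[n] y)).map φ := by
      ext i j
      rw [pjac, Matrix.of_apply, MvPolynomial.pderiv_map, eval_map_comp, Matrix.map_apply, pjac,
        Matrix.of_apply]
    rw [h5, ← RingHom.mapMatrix_apply, ← RingHom.map_det] at h4
    intro h6
    exact h4 (by rw [h6, map_zero])

end Pool.Agent.Helper38.Sym
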