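import Mathlib
import Pool.Agent.Helper38.Sym.Basic

/-!
# The forms are defined over the prime field
-/

set_option autoImplicit false

open Polynomial Finset Function

namespace Pool.Agent.Helper38.Sym

section indep

variable {K : Type*} [Field K] {N : ℕ}

/-- twisting by a scalar -/
def twc {R : Type*} [CommRing R] (c : R) (y : Fin (N + 1) → R) : Fin (N + 1) → R :=
  fun j => y j * c ^ (j : ℕ)

theorem Qp_eq_prod_roots {S : Type*} [CommRing S] {d : ℕ} (hd : 0 < d) {ω : K}
    (h : IsPrimitiveRoot ω d) (φ : K →+* S) (y : Fin (N + 1) → S) :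
    Qp d (φ ω) y = ∏ c ∈ nthRootsFinset d (1 : K), pol (twc (φ c) y) := by
  classical
  have himg : (range d).image (fun i => ω ^ i) = nthRootsFinset d (1 : K) := by
    apply Finset.eq_of_subset_of_card_le
    · intro c hc
      rw [mem_image] at hc
      obtain ⟨i, _, rfl⟩ := hc
      rw [mem_nthRootsFinset hd, ← pow_mul, mul_comm, pow_mul, h.pow_eq_one, one_pow]
    · rw [h.card_nthRootsFinset, Finset.card_image_of_injOn, card_range]
      intro i hi j hj hij
      simp only [coe_range, Set.mem_Iio] at hi hj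
      exact h.pow_inj hi hj hij
  rw [← himg, Finset.prod_image, Qp]
  · apply Finset.prod_congr rfl
    intro i _
    congr 1
    funext j
    simp [tw, twc]
  · intro i hi j hj hij
    simp only [coe_range, Set.mem_Iio] at hi hj
    exact h.pow_inj hi hj hij

theorem Fs_indep {d : ℕ} (hd : 0 < d) {ω ω' : K} (h : IsPrimitiveRoot ω d)
    (h' : IsPrimitiveRoot ω' d) (b : K) (i : Fin (N + 1)) : Fs N d ω b i = Fs N d ω' b i := by
  rw [Fs, Fs]
  apply Finset.sum_congr rfl
  intro j _
  rw [Pc, Pc, Qp_eq_prod_roots hd h MvPolynomial.C, Qp_eq_prod_roots hd h' MvPolynomial.C]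

end indep

/-- the forms over the prime field -/
theorem exists_Fs_prime (N d p : ℕ) [Fact p.Prime] (hd : 0 < d) (hpd : ¬ p ∣ d)
    (b : ZMod p) :
    ∃ F₀ : Fin (N + 1) → MvPolynomial (Fin (N + 1)) (ZMod p), (∀ i, (F₀ i).IsHomogeneous d) ∧
      ∀ (K : Type) [Field K] [IsAlgClosed K] [Algebra (ZMod p) K],
        ∃ ω : K, IsPrimitiveRoot ω d ∧
          ∀ i, MvPolynomial.map (algebraMap (ZMod p) K) (F₀ i) = Fs N d ω (algebraMap _ K b) i := by
  classical
  have hp : p.Prime := Fact.out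
  have hroot : ∀ (K : Type) [Field K] [IsAlgClosed K] [Algebra (ZMod p) K],
      ∃ ω : K, IsPrimitiveRoot ω d := by
    intro K _ _ _
    have hcp : CharP K p := charP_of_injective_algebraMap (algebraMap (ZMod p) K).injective p
    have hdK : NeZero ((d : ℕ) : K) := ⟨fun h => hpd ((CharP.cast_eq_zero_iff K p d).1 h)⟩
    have hd0 : NeZero d := ⟨hd.ne'⟩
    have h1 := (inferInstance : HasEnoughRootsOfUnity K d)
    exact h1.prim
  let K₁ := AlgebraicClosure (ZMod p)
  have hcp₁ : CharP K₁ p := charP_of_injective_algebraMap (algebraMap (ZMod p) K₁).injective p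
  obtain ⟨ω₁, hω₁⟩ := hroot K₁
  have hb : (algebraMap (ZMod p) K₁ b) ^ p = algebraMap (ZMod p) K₁ b := by
    rw [← map_pow, ZMod.pow_card]
  have hcop : Nat.Coprime p d := (Nat.Prime.coprime_iff_not_dvd hp).2 hpd
  have hω₁' : IsPrimitiveRoot (ω₁ ^ p) d := hω₁.pow_of_coprime p hcop
  have hinv : ∀ i, MvPolynomial.map (frobenius K₁ p) (Fs N d ω₁ (algebraMap _ K₁ b) i)
      = Fs N d ω₁ (algebraMap _ K₁ b) i := by
    intro i
    rw [map_Fs]
    simp only [frobenius_def]
    rw [hb, Fs_indep hd hω₁' hω₁]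
  have hrange : ∀ i, Fs N d ω₁ (algebraMap _ K₁ b) i
      ∈ Set.range (MvPolynomial.map (algebraMap (ZMod p) K₁)) := by
    intro i
    rw [MvPolynomial.mem_range_map_iff_coeffs_subset]
    intro c hc
    rw [mem_coe, MvPolynomial.mem_coeffs_iff] at hc
    obtain ⟨e, _, rfl⟩ := hc
    have h1 := congrArg (MvPolynomial.coeff e) (hinv i)
    rw [MvPolynomial.coeff_map, frobenius_def] at h1
    have h2 := (Subfield.mem_bot_iff_pow_eq_self K₁ p).2 h1
    have h3 : (⊥ : Subfield K₁) ≤ (algebraMap (ZMod p) K₁).fieldRange := bot_le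
    exact h3 h2
  choose F₀ hF₀ using hrange
  refine ⟨F₀, fun i => ?_, ?_⟩
  · have h1 := Fs_homog (N := N) d ω₁ (algebraMap _ K₁ b) i
    rw [← hF₀ i] at h1
    exact MvPolynomial.IsHomogeneous.of_map (algebraMap (ZMod p) K₁).injective h1
  · intro K _ _ _
    obtain ⟨σ⟩ : Nonempty (K₁ →ₐ[ZMod p] K) := ⟨IsAlgClosed.lift⟩
    refine ⟨σ ω₁, hω₁.map_of_injective (f := σ) σ.toRingHom.injective, fun i => ?_⟩
    have h1 : MvPolynomial.map (algebraMap (ZMod p) K) (F₀ i)
        = MvPolynomial.map (σ : K₁ →+* K) (MvPolynomial.map (algebraMap (ZMod p) K₁) (F₀ i)) := by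
      have h2 : (σ : K₁ →+* K).comp (algebraMap (ZMod p) K₁) = algebraMap (ZMod p) K :=
        σ.comp_algebraMap
      rw [MvPolynomial.map_map, h2]
    have h3 : (σ : K₁ →+* K) (algebraMap (ZMod p) K₁ b) = algebraMap (ZMod p) K b :=
      σ.commutes b
    rw [h1, hF₀ i, map_Fs, h3]
    rfl

end Pool.Agent.Helper38.Sym
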