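import Mathlib
import Pool.Agent.Helper38.Sym.Basic

/-!
# Dynamics of the symmetric powers of `s ↦ 1 + b s⁻ᵈ`
-/

set_option autoImplicit false

open Polynomial Finset Function

namespace Pool.Agent.Helper38.Sym

section field

variable {K : Type*} [Field K] {N : ℕ}

/-- zeros on the projective line (`none` is the point at infinity) -/
def zr (y : Fin (N + 1) → K) : Option K → Prop
  | some s => (pol y).eval s = 0
  | none => y (Fin.last N) = 0

open Classical in
/-- the map `s ↦ 1 + b s⁻ᵈ` on the projective line -/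
noncomputable def fm (d : ℕ) (b : K) : Option K → Option K
  | none => some 1
  | some s => if s = 0 then none else some (1 + b / s ^ d)

theorem fm_none (d : ℕ) (b : K) : fm d b none = some 1 := rfl

theorem fm_zero (d : ℕ) (b : K) : fm d b (some 0) = none := by
  simp [fm]

theorem fm_some (d : ℕ) (b : K) {s : K} (hs : s ≠ 0) : fm d b (some s) = some (1 + b / s ^ d) := by
  simp [fm, hs]

/-- the symmetric power on coefficient vectors -/
noncomputable def Fv (d : ℕ) (ω b : K) (y : Fin (N + 1) → K) : Fin (N + 1) → K :=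
  Lam b (Pc d ω y)

theorem Pc_first {d : ℕ} (hd : 0 < d) {ω : K} (hω : IsPrimitiveRoot ω d) (y : Fin (N + 1) → K) :
    Pc d ω y 0 = 0 ↔ (pol y).eval 0 = 0 := by
  have h := eval_Pc hd hω y 0
  rw [zero_pow hd.ne', ← coeff_zero_eq_eval_zero] at h
  have h1 : (pol (Pc d ω y)).coeff 0 = Pc d ω y 0 := pol_coeff_fin _ 0
  rw [← h1, h]
  simp only [mul_zero, Finset.prod_const, card_range]
  exact pow_eq_zero_iff hd.ne'

theorem Pc_last {d : ℕ} (hd : 0 < d) {ω : K} (hω : IsPrimitiveRoot ω d) (y : Fin (N + 1) → K) :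
    Pc d ω y (Fin.last N) = 0 ↔ y (Fin.last N) = 0 := by
  have h := coeff_prod_of_natDegree_le (s := range d) (fun i => pol (tw ω i y)) N
    (fun i _ => pol_natDegree_le _)
  rw [card_range] at h
  have h1 : Pc d ω y (Fin.last N) = ∏ i ∈ range d, (pol (tw ω i y)).coeff N := by
    rw [← h, Pc, Qp, Fin.val_last]
  have h2 : ∀ i, (pol (tw ω i y)).coeff N = y (Fin.last N) * (ω ^ i) ^ N := by
    intro i
    exact pol_coeff_fin (tw ω i y) (Fin.last N)
  have hω0 : ω ≠ 0 := hω.ne_zero hd.ne'
  rw [h1, Finset.prod_eq_zero_iff]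
  constructor
  · rintro ⟨i, _, hi⟩
    rw [h2] at hi
    exact (mul_eq_zero.1 hi).resolve_right (pow_ne_zero _ (pow_ne_zero _ hω0))
  · intro h3
    exact ⟨0, mem_range.2 hd, by rw [h2, h3, zero_mul]⟩

theorem eval_Lam_ne {b : K} (p : Fin (N + 1) → K) {x : K} (hx : x ≠ 1) :
    (pol (Lam b p)).eval x = (x - 1) ^ N * (pol p).eval (b / (x - 1)) := by
  have hx' : x - 1 ≠ 0 := sub_ne_zero.2 hx
  rw [eval_Lam, pol, eval_finsetSum, Finset.mul_sum]
  apply Finset.sum_congr rfl
  intro j _
  simp only [eval_mul, eval_C, eval_pow, eval_X]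
  have hj := j.2
  have h1 : (x - 1) ^ N = (x - 1) ^ (N - (j : ℕ)) * (x - 1) ^ (j : ℕ) := by
    rw [← pow_add]
    congr 1
    omega
  rw [h1, div_pow]
  field_simp

theorem zr_Fv [IsAlgClosed K] {d : ℕ} (hd : 0 < d) {ω b : K} (hω : IsPrimitiveRoot ω d)
    (hb : b ≠ 0) (y : Fin (N + 1) → K) (o : Option K) :
    zr (Fv d ω b y) o ↔ ∃ o', zr y o' ∧ fm d b o' = o := by
  cases o with
  | none =>
    change Lam b (Pc d ω y) (Fin.last N) = 0 ↔ _
    rw [Lam_last, Pc_first hd hω]
    constructor
    · intro h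
      exact ⟨some 0, h, fm_zero d b⟩
    · rintro ⟨o', h1, h2⟩
      cases o' with
      | none => rw [fm_none] at h2; exact absurd h2 (by simp)
      | some s =>
        by_cases hs : s = 0
        · subst hs; exact h1
        · rw [fm_some d b hs] at h2; exact absurd h2 (by simp)
  | some x =>
    change (pol (Lam b (Pc d ω y))).eval x = 0 ↔ _
    by_cases hx : x = 1
    · subst hx
      rw [eval_Lam_one, mul_eq_zero, or_iff_left (pow_ne_zero _ hb), Pc_last hd hω]
      constructor
      · intro h
        exact ⟨none, h, rfl⟩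
      · rintro ⟨o', h1, h2⟩
        cases o' with
        | none => exact h1
        | some s =>
          exfalso
          by_cases hs : s = 0
          · subst hs; rw [fm_zero] at h2; exact absurd h2 (by simp)
          · rw [fm_some d b hs, Option.some_inj] at h2
            have h3 : b / s ^ d = 0 := by linear_combination h2
            rw [div_eq_zero_iff] at h3
            rcases h3 with h3 | h3
            · exact hb h3
            · exact pow_ne_zero _ hs h3
    · have hx' : x - 1 ≠ 0 := sub_ne_zero.2 hx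
      rw [eval_Lam_ne _ hx, mul_eq_zero, or_iff_right (pow_ne_zero _ hx')]
      constructor
      · intro h
        obtain ⟨s, hs⟩ := IsAlgClosed.exists_pow_nat_eq (b / (x - 1)) hd
        rw [← hs, eval_Pc hd hω, Finset.prod_eq_zero_iff] at h
        obtain ⟨i, _, hi⟩ := h
        have hs0 : s ≠ 0 := by
          rintro rfl
          rw [zero_pow hd.ne'] at hs
          exact div_ne_zero hb hx' hs.symm
        have hω0 : ω ≠ 0 := hω.ne_zero hd.ne'
        refine ⟨some (ω ^ i * s), hi, ?_⟩
        rw [fm_some d b (mul_ne_zero (pow_ne_zero _ hω0) hs0), mul_pow, ← pow_mul, mul_comm i d,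
          pow_mul, hω.pow_eq_one, one_pow, one_mul, hs]
        congr 1
        field_simp
        ring
      · rintro ⟨o', h1, h2⟩
        cases o' with
        | none =>
          rw [fm_none, Option.some_inj] at h2
          exact absurd h2.symm hx
        | some s =>
          by_cases hs : s = 0
          · subst hs; rw [fm_zero] at h2; exact absurd h2 (by simp)
          · rw [fm_some d b hs, Option.some_inj] at h2
            have h3 : b / (x - 1) = s ^ d := by
              rw [← h2, add_sub_cancel_left]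
              have := pow_ne_zero d hs
              field_simp
            rw [h3, eval_Pc hd hω, Finset.prod_eq_zero_iff]
            refine ⟨0, mem_range.2 hd, ?_⟩
            rw [pow_zero, one_mul]
            exact h1

theorem zr_iterate [IsAlgClosed K] {d : ℕ} (hd : 0 < d) {ω b : K} (hω : IsPrimitiveRoot ω d)
    (hb : b ≠ 0) (y : Fin (N + 1) → K) (n : ℕ) (o : Option K) :
    zr ((Fv d ω b)^[n] y) o ↔ ∃ o', zr y o' ∧ (fm d b)^[n] o' = o := by
  induction n generalizing o with
  | zero => simp
  | succ n ih =>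
    rw [iterate_succ_apply', zr_Fv hd hω hb]
    constructor
    · rintro ⟨o', h1, h2⟩
      obtain ⟨o'', h3, h4⟩ := (ih o').1 h1
      exact ⟨o'', h3, by rw [iterate_succ_apply', h4, h2]⟩
    · rintro ⟨o', h1, h2⟩
      rw [iterate_succ_apply'] at h2
      exact ⟨_, (ih _).2 ⟨o', h1, rfl⟩, h2⟩

theorem zr_finite {y : Fin (N + 1) → K} (hy : y ≠ 0) : {o | zr y o}.Finite := by
  classical
  have h1 : {s : K | (pol y).eval s = 0}.Finite := by
    refine ((pol y).roots.toFinset.finite_toSet).subset ?_
    intro s hs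
    rw [mem_coe, Multiset.mem_toFinset, mem_roots (pol_ne_zero hy)]
    exact hs
  refine ((h1.image some).union (Set.finite_singleton none)).subset ?_
  intro o ho
  cases o with
  | none => right; rfl
  | some s => left; exact ⟨s, ho, rfl⟩

/-- the zeros of a periodic form are periodic -/
theorem periodic_of_zr [IsAlgClosed K] {d : ℕ} (hd : 0 < d) {ω b : K} (hω : IsPrimitiveRoot ω d)
    (hb : b ≠ 0) {y : Fin (N + 1) → K} (hy : y ≠ 0) (hper : y ∈ periodicPts (Fv d ω b))
    {o : Option K} (ho : zr y o) : o ∈ periodicPts (fm d b) := by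
  obtain ⟨n, hn, hyn⟩ := hper
  have hyn' : (Fv d ω b)^[n] y = y := hyn
  have h1 : ∀ o, zr y o ↔ ∃ o', zr y o' ∧ (fm d b)^[n] o' = o := by
    intro o
    have := zr_iterate hd hω hb y n o
    rwa [hyn'] at this
  have hmaps : Set.MapsTo (fm d b)^[n] {o | zr y o} {o | zr y o} := by
    intro o ho
    exact (h1 _).2 ⟨o, ho, rfl⟩
  have hfin : Finite {o | zr y o} := (zr_finite hy).to_subtype
  have hsurj : Function.Surjective (hmaps.restrict _ _ _) := by
    rintro ⟨o, ho⟩
    obtain ⟨o', ho', h2⟩ := (h1 o).1 ho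
    exact ⟨⟨o', ho'⟩, Subtype.ext h2⟩
  have hinj := Finite.injective_iff_surjective.2 hsurj
  obtain ⟨k, hk, h3⟩ := hinj.mem_periodicPts ⟨o, ho⟩
  refine ⟨n * k, Nat.mul_pos hn hk, ?_⟩
  have h4 : ∀ j, ∀ z : {o | zr y o}, (((hmaps.restrict _ _ _)^[j] z : {o | zr y o}) : Option K)
      = ((fm d b)^[n])^[j] z := by
    intro j
    induction j with
    | zero => intro z; rfl
    | succ j ih =>
      intro z
      rw [iterate_succ_apply, ih, iterate_succ_apply]
      rfl
  have h5 := h4 k ⟨o, ho⟩
  rw [h3.eq] at h5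
  change (fm d b)^[n * k] o = o
  rw [iterate_mul]
  exact h5.symm

/-- the critical points are not periodic -/
theorem iterate_none {d : ℕ} {ω : K} (hω : ω ^ d = 1) (hω0 : ω ≠ 0) (n : ℕ) :
    (fm d (ω - 1))^[n + 1] none = some 1 ∨ (fm d (ω - 1))^[n + 1] none = some ω := by
  induction n with
  | zero => left; rfl
  | succ n ih =>
    right
    rw [iterate_succ_apply']
    rcases ih with ih | ih
    · rw [ih, fm_some _ _ one_ne_zero, one_pow, div_one]
      congr 1
      ring
    · rw [ih, fm_some _ _ hω0, hω, div_one]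
      congr 1
      ring

theorem none_not_periodic {d : ℕ} {ω : K} (hω : ω ^ d = 1) (hω0 : ω ≠ 0) :
    none ∉ periodicPts (fm d (ω - 1)) := by
  rintro ⟨n, hn, h⟩
  obtain ⟨m, rfl⟩ : ∃ m, n = m + 1 := ⟨n - 1, by omega⟩
  have h' : (fm d (ω - 1))^[m + 1] none = none := h
  rcases iterate_none hω hω0 m with h1 | h1
  · rw [h1] at h'; exact absurd h' (by simp)
  · rw [h1] at h'; exact absurd h' (by simp)

theorem zero_not_periodic {d : ℕ} {ω : K} (hω : ω ^ d = 1) (hω0 : ω ≠ 0) :
    some 0 ∉ periodicPts (fm d (ω - 1)) := by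
  rintro ⟨n, hn, h⟩
  obtain ⟨m, rfl⟩ : ∃ m, n = m + 1 := ⟨n - 1, by omega⟩
  have h' : (fm d (ω - 1))^[m + 1] (some 0) = some 0 := h
  rw [iterate_succ_apply, fm_zero] at h'
  cases m with
  | zero => exact absurd h' (by simp)
  | succ m =>
    rcases iterate_none hω hω0 m with h1 | h1
    · rw [h1, Option.some_inj] at h'; exact one_ne_zero h'
    · rw [h1, Option.some_inj] at h'; exact hω0 h'

theorem Fv_ne_zero {d : ℕ} (hd : 0 < d) {ω b : K} (hω : IsPrimitiveRoot ω d)
    (hb : b ≠ 0) {y : Fin (N + 1) → K} (hy : y ≠ 0) : Fv d ω b y ≠ 0 := by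
  intro h
  have h1 := Lam_injective hb h
  have h2 := Qp_eq_expand hd hω y
  rw [h1, pol_zero, map_zero, Qp, Finset.prod_eq_zero_iff] at h2
  obtain ⟨i, _, hi⟩ := h2
  apply hy
  have h3 : tw ω i y = 0 := pol_ext (by rw [hi, pol_zero])
  funext j
  have h4 := congrFun h3 j
  rw [tw, Pi.zero_apply] at h4
  exact (mul_eq_zero.1 h4).resolve_right (pow_ne_zero _ (pow_ne_zero _ (hω.ne_zero hd.ne')))

end field

end Pool.Agent.Helper38.Sym
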