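import Mathlib
import Pool.Agent.Helper38.Sym.GenEngine

/-!
# Reduction of an arbitrary complex point, general coefficients
-/

set_option autoImplicit false

open Module Function
open scoped IntermediateField.algebraAdjoinAdjoin

namespace Pool.Agent.Helper38.Sym

open Pool.Agent.Helper37 Pool.Agent.Helper38.Dml

/-- Let `R₀` be a discrete valuation ring of characteristic zero with fraction field `K₀` and `p`
elements in its residue field and let `K` be a finite extension of `K₀`; some discrete valuation
ring of `K` dominates `R₀` and has a finite residue field. -/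
theorem exists_dvr_dom (p : ℕ) [Fact p.Prime] {R₀ K₀ : Type*} {K : Type} [CommRing R₀] [IsDomain R₀]
    [CharZero R₀] [IsDiscreteValuationRing R₀]
    (hp : (p : R₀) ∈ IsLocalRing.maximalIdeal R₀)
    (hcard : Nat.card (IsLocalRing.ResidueField R₀) = p)
    [Field K₀] [Field K] [Algebra R₀ K₀] [IsFractionRing R₀ K₀] [Algebra K₀ K]
    [FiniteDimensional K₀ K] :
    ∃ (R : Type) (_ : CommRing R) (_ : IsDomain R) (_ : CharZero R)
      (_ : IsDiscreteValuationRing R) (_ : Algebra R K) (γ : R₀ →+* R),
      (∀ x, algebraMap R K (γ x) = algebraMap K₀ K (algebraMap R₀ K₀ x)) ∧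
      (∀ x ∈ IsLocalRing.maximalIdeal R₀, γ x ∈ IsLocalRing.maximalIdeal R) ∧
      IsFractionRing R K ∧ (p : R) ∈ IsLocalRing.maximalIdeal R ∧
      ∃ e : ℕ, Nat.card (IsLocalRing.ResidueField R) = p ^ e := by
  classical
  have : CharZero K₀ := charZero_of_injective_algebraMap (IsFractionRing.injective R₀ K₀)
  let _ : Algebra R₀ K := ((algebraMap K₀ K).comp (algebraMap R₀ K₀)).toAlgebra
  have : IsScalarTower R₀ K₀ K := IsScalarTower.of_algebraMap_eq (fun _ => rfl)
  let S := integralClosure R₀ K
  have hDed : IsDedekindDomain S := integralClosure.isDedekindDomain R₀ K₀ K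
  have hFrac : IsFractionRing S K := IsIntegralClosure.isFractionRing_of_finite_extension R₀ K₀ K S
  have hFin : Module.Finite R₀ S := IsIntegralClosure.finite R₀ K₀ K S
  have : IsTorsionFree R₀ K := by
    have hinj : Function.Injective (algebraMap R₀ K) :=
      (algebraMap K₀ K).injective.comp (IsFractionRing.injective R₀ K₀)
    exact Module.IsTorsionFree.of_smul_eq_zero (by
      intro r x hrx
      rw [Algebra.smul_def] at hrx
      rcases mul_eq_zero.1 hrx with h | h
      · left; exact hinj (by rw [h, map_zero])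
      · right; exact h)
  have hFree : Module.Free R₀ S := IsIntegralClosure.module_free R₀ K₀ K S
  have hrank : finrank R₀ S = finrank K₀ K := IsIntegralClosure.rank R₀ K₀ K S
  let P := IsLocalRing.maximalIdeal R₀
  have : _root_.Finite (P.primesOver S) := Algebra.QuasiFinite.finite_primesOver P
  let _ := Fintype.ofFinite (P.primesOver S)
  have hsum := Ideal.sum_ramification_inertia_eq_finrank P S
  have hpos : 0 < finrank K₀ K := finrank_pos
  obtain ⟨q, _, hq⟩ : ∃ q : P.primesOver S, q ∈ Finset.univ ∧
      q.1.ramificationIdx R₀ * q.1.inertiaDeg R₀ ≠ 0 := by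
    apply Finset.exists_ne_zero_of_sum_ne_zero
    rw [hsum, hrank]
    exact hpos.ne'
  have hqmax : q.1.IsMaximal := inferInstance
  have hqlies : q.1.LiesOver P := q.2.2
  have hq0 : q.1 ≠ ⊥ := by
    intro h
    have h1 : P = ⊥ := by
      have := hqlies.over
      rw [this, h]
      exact Ideal.under_bot _ _
    exact IsDiscreteValuationRing.not_a_field R₀ h1
  let R := Localization.AtPrime q.1
  have hDVR : IsDiscreteValuationRing R :=
    IsLocalization.AtPrime.isDiscreteValuationRing_of_dedekind_domain S hq0 R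
  let _ : Algebra R K := IsLocalization.localizationAlgebraOfSubmonoidLe R K q.1.primeCompl
    (nonZeroDivisors S) q.1.primeCompl_le_nonZeroDivisors
  have : IsScalarTower S R K := IsLocalization.localization_isScalarTower_of_submonoid_le R K
    q.1.primeCompl (nonZeroDivisors S) q.1.primeCompl_le_nonZeroDivisors
  have hFR : IsFractionRing R K :=
    IsFractionRing.isFractionRing_of_isDomain_of_isLocalization q.1.primeCompl R K
  have hS0 : CharZero S := charZero_of_injective_algebraMap (R := R₀)
    (FaithfulSMul.algebraMap_injective R₀ S)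
  have hchar : CharZero R := charZero_of_injective_algebraMap (R := S)
    (IsLocalization.injective R q.1.primeCompl_le_nonZeroDivisors)
  have hdom : ∀ x ∈ IsLocalRing.maximalIdeal R₀,
      ((algebraMap S R).comp (algebraMap R₀ S)) x ∈ IsLocalRing.maximalIdeal R := by
    intro x hx
    have h1 : algebraMap R₀ S x ∈ q.1 := by
      have h0 : P = Ideal.under R₀ q.1 := hqlies.over
      have h1 : x ∈ Ideal.under R₀ q.1 := by rw [← h0]; exact hx
      exact h1
    have h2 : algebraMap S R (algebraMap R₀ S x) ∈ IsLocalRing.maximalIdeal R := by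
      rw [← Ideal.mem_under, IsLocalization.AtPrime.under_maximalIdeal R q.1]
      exact h1
    exact h2
  refine ⟨R, inferInstance, inferInstance, hchar, hDVR, inferInstance,
    (algebraMap S R).comp (algebraMap R₀ S), ?_, hdom, hFR, ?_, ?_⟩
  · intro x
    rw [RingHom.comp_apply, ← IsScalarTower.algebraMap_apply S R K]
    rfl
  · have h1 := hdom p hp
    simpa using h1
  · refine ⟨q.1.inertiaDeg R₀, ?_⟩
    have h1 : Nat.card (IsLocalRing.ResidueField R) = Nat.card (S ⧸ q.1) :=
      Nat.card_congr (IsLocalization.AtPrime.equivQuotMaximalIdeal q.1 R).symm.toEquiv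
    have h2 : Nat.card (R₀ ⧸ P) = p := hcard
    rw [h1, natCard_quotient_eq_pow P q.1, h2]

/-- every complex point has coordinates in a finite extension of a purely transcendental
extension of a given subfield -/
theorem exists_tower_gen (K₀ : Type) [Field K₀] [Algebra K₀ ℂ] {m : ℕ} (a : Fin m → ℂ) :
    ∃ (r : ℕ) (t : Fin r → ℂ), AlgebraicIndependent K₀ t ∧
      ∃ L : IntermediateField (IntermediateField.adjoin K₀ (Set.range t)) ℂ,
        FiniteDimensional (IntermediateField.adjoin K₀ (Set.range t)) L ∧ ∀ i, a i ∈ L := by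
  obtain ⟨s, hs⟩ := (AlgebraicIndependent.matroid K₀ ℂ).exists_isBasis (Set.range a)
    (Set.subset_univ _)
  rw [AlgebraicIndependent.matroid_isBasis_iff] at hs
  obtain ⟨hind, hsub, halg⟩ := hs
  have hfin : s.Finite := (Set.finite_range a).subset hsub
  have : Fintype s := hfin.fintype
  let e := Fintype.equivFin s
  let t : Fin (Fintype.card s) → ℂ := fun i => (e.symm i : ℂ)
  have ht : AlgebraicIndependent K₀ t := hind.comp e.symm e.symm.injective
  have hrange : Set.range t = s := by
    ext x
    constructor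
    · rintro ⟨i, rfl⟩
      exact (e.symm i).2
    · intro hx
      exact ⟨e ⟨x, hx⟩, by simp [t]⟩
  rw [← hrange] at halg
  refine ⟨_, t, ht, IntermediateField.adjoin _ (Set.range a), ?_, fun i =>
    IntermediateField.subset_adjoin _ _ ⟨i, rfl⟩⟩
  have hfr : Finite (Set.range a) := (Set.finite_range a).to_subtype
  apply IntermediateField.finiteDimensional_adjoin
  intro x hx
  have h1 := halg x hx
  exact (h1.extendScalars (S := IntermediateField.adjoin K₀ (Set.range t))
    (FaithfulSMul.algebraMap_injective _ _)).isIntegral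

/-- extending an embedding into `ℚ_p` to a purely transcendental extension -/
theorem exists_alg_embedding (K₀ : Type) [Field K₀] [Countable K₀] [Algebra K₀ ℂ] (p : ℕ)
    [Fact p.Prime] [Algebra K₀ ℚ_[p]] (r : ℕ) (t : Fin r → ℂ) (ht : AlgebraicIndependent K₀ t) :
    Nonempty (IntermediateField.adjoin K₀ (Set.range t) →ₐ[K₀] ℚ_[p]) := by
  obtain ⟨s, hs⟩ := exists_algebraicIndependent_of_countable p K₀ r
  exact ⟨(IntermediateField.adjoin K₀ (Set.range s)).val.comp
    (hs.aevalEquivField.toAlgHom.comp ht.aevalEquivField.symm.toAlgHom)⟩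

/-- reduction of a point over a finite extension of a field embedded into `ℚ_p` -/
theorem reduction_core {m : ℕ} (p : ℕ) [Fact p.Prime] {A : Type} [CommRing A]
    (α : A →+* ℂ) (β : A →+* ℤ_[p]) {K₁ L : Type} [Field K₁] [Field L] [Algebra K₁ L]
    [FiniteDimensional K₁ L] [Algebra L ℂ] (ι : K₁ →+* ℚ_[p]) (κ : A →+* K₁)
    (hκ : ∀ x, ι (κ x) = (β x : ℚ_[p]))
    (hα : ∀ x, algebraMap L ℂ (algebraMap K₁ L (κ x)) = α x) (a : Fin m → L) (ha : a ≠ 0) :
    ∃ (k : Type) (_ : Field k) (_ : CharP k p) (y₀ : Fin m → k), y₀ ≠ 0 ∧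
      ∀ (d : ℕ) (F : Fin m → MvPolynomial (Fin m) A) (_ : ∀ i, (F i).IsHomogeneous d)
        (F₀ : Fin m → MvPolynomial (Fin m) (ZMod p))
        (_ : ∀ i, MvPolynomial.map ((PadicInt.toZMod).comp β) (F i) = F₀ i),
        (GoodAt (fun i => MvPolynomial.map (ZMod.castHom (dvd_refl p) k) (F₀ i)) y₀ →
          DMLgen (fun i => MvPolynomial.map α (F i)) (fun i => algebraMap L ℂ (a i))) ∧
        ((∀ i, MvPolynomial.eval (fun i => algebraMap L ℂ (a i))
            (MvPolynomial.map α (F i)) = 0) →
          ∀ i, MvPolynomial.eval y₀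
            (MvPolynomial.map (ZMod.castHom (dvd_refl p) k) (F₀ i)) = 0) := by
  classical
  obtain ⟨R, _, _, _, _, _, γ, hγ, hγm, hFrac, hpR, e, hcard⟩ := exists_dvr_dom p
    (R₀ := padicRing p ι) (K₀ := K₁) (K := L)
    (p_mem_maximalIdeal p _) (card_residueField_padicRing p _)
  have hfin : Finite (IsLocalRing.ResidueField R) := Nat.finite_of_card_ne_zero (by
    rw [hcard]; exact pow_ne_zero _ (Fact.out : p.Prime).ne_zero)
  have hpk : (p : IsLocalRing.ResidueField R) = 0 := by
    have := (IsLocalRing.residue_eq_zero_iff (p : R)).2 hpR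
    simpa using this
  have hcp : CharP (IsLocalRing.ResidueField R) p := charP_of_natCast_eq_zero p Fact.out _ hpk
  let _ : Algebra R ℂ := ((algebraMap L ℂ).comp (algebraMap R L)).toAlgebra
  have hRL : Function.Injective (algebraMap R ℂ) :=
    (algebraMap L ℂ).injective.comp (IsFractionRing.injective R L)
  obtain ⟨b, c, hc, ⟨i₀, hi₀⟩, hab⟩ := exists_primitive (R := R) a ha
  have hcℂ : algebraMap L ℂ c ≠ 0 := by
    intro h
    exact hc ((map_eq_zero _).1 h)
  have hab' : (fun i => algebraMap L ℂ (a i))
      = fun i => algebraMap L ℂ c * algebraMap R ℂ (b i) := by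
    funext i
    rw [hab i, map_mul]
    rfl
  -- the map from `A` to `R`
  have hmem : ∀ x : A, κ x ∈ padicRing p ι := by
    intro x
    rw [mem_padicRing, hκ]
    exact (β x).2
  let δ : A →+* padicRing p ι := κ.codRestrict _ hmem
  have hδα : ∀ x : A, algebraMap R ℂ (γ (δ x)) = α x := by
    intro x
    change algebraMap L ℂ (algebraMap R L (γ (δ x))) = α x
    rw [hγ, ← hα]
    rfl
  have hres : ∀ x : A, IsLocalRing.residue R (γ (δ x))
      = ZMod.castHom (dvd_refl p) (IsLocalRing.ResidueField R) (PadicInt.toZMod (β x)) := by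
    intro x
    obtain ⟨n, hn⟩ := ZMod.natCast_zmod_surjective (PadicInt.toZMod (β x))
    rw [← hn, map_natCast]
    have h1 : δ x - (n : padicRing p ι) ∈ IsLocalRing.maximalIdeal (padicRing p ι) := by
      rw [IsLocalRing.mem_maximalIdeal, mem_nonunits_iff, isUnit_padicRing_iff]
      have h2 : ι ((δ x - (n : padicRing p ι) : padicRing p ι) : K₁)
          = ((β x - (n : ℤ_[p]) : ℤ_[p]) : ℚ_[p]) := by
        have h3 : ι ((δ x : padicRing p ι) : K₁) = (β x : ℚ_[p]) := hκ x
        push_cast
        rw [map_sub, h3, map_natCast]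
      rw [h2]
      have h4 : (β x - (n : ℤ_[p]) : ℤ_[p]) ∈ IsLocalRing.maximalIdeal ℤ_[p] := by
        rw [← PadicInt.ker_toZMod, RingHom.mem_ker, map_sub, map_natCast, ← hn, sub_self]
      rw [IsLocalRing.mem_maximalIdeal, mem_nonunits_iff, PadicInt.isUnit_iff] at h4
      exact h4
    have h5 := hγm _ h1
    rw [← IsLocalRing.residue_eq_zero_iff, map_sub, map_natCast, map_sub, map_natCast,
      sub_eq_zero] at h5
    exact h5
  refine ⟨IsLocalRing.ResidueField R, inferInstance, hcp,
    fun i => IsLocalRing.residue R (b i), ?_, ?_⟩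
  · intro h
    exact (IsLocalRing.residue_ne_zero_iff_isUnit _).2 hi₀ (congrFun h i₀)
  · intro d F hF F₀ hF₀
    set GR : Fin m → MvPolynomial (Fin m) R := fun i => MvPolynomial.map (γ.comp δ) (F i) with hGR
    have hGRh : ∀ i, (GR i).IsHomogeneous d := fun i => (hF i).map _
    have hGRα : ∀ i, MvPolynomial.map (algebraMap R ℂ) (GR i) = MvPolynomial.map α (F i) := by
      intro i
      have h : (algebraMap R ℂ).comp (γ.comp δ) = α := RingHom.ext fun x => hδα x
      rw [hGR, MvPolynomial.map_map, h]
    have hGRk : ∀ i, MvPolynomial.map (IsLocalRing.residue R) (GR i)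
        = MvPolynomial.map (ZMod.castHom (dvd_refl p) (IsLocalRing.ResidueField R)) (F₀ i) := by
      intro i
      have h : (IsLocalRing.residue R).comp (γ.comp δ)
          = (ZMod.castHom (dvd_refl p) (IsLocalRing.ResidueField R)).comp
            ((PadicInt.toZMod).comp β) := RingHom.ext fun x => hres x
      rw [hGR, ← hF₀ i, MvPolynomial.map_map, MvPolynomial.map_map, h]
    refine ⟨fun hG => ?_, fun h0 i => ?_⟩
    · have h1 := dml_dvr_general p Fact.out hpR (IsLocalRing.residue R)
        (fun r hr => (IsLocalRing.residue_ne_zero_iff_isUnit r).1 hr) GR hGRh b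
        (by simpa only [hGRk] using hG) hRL (algebraMap L ℂ c) hcℂ
      rw [hab']
      simpa only [hGRα] using h1
    · have h1 := h0 i
      rw [← hGRα i] at h1
      have h3 : (fun i => algebraMap L ℂ (a i))
          = algebraMap L ℂ c • (fun i => algebraMap R ℂ (b i)) := hab'
      rw [h3, eval_smul_of_homog ((hGRh i).map _), mul_eq_zero,
        or_iff_right (pow_ne_zero _ hcℂ), ← map_eval_gen] at h1
      have h4 : MvPolynomial.eval b (GR i) = 0 := hRL (by rw [h1, map_zero])
      rw [← hGRk i, ← map_eval_gen, h4, map_zero]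

theorem countable_fractionRing (A : Type) [CommRing A] [IsDomain A] [Countable A] :
    Countable (FractionRing A) := by
  have h : Function.Surjective (fun q : A × nonZeroDivisors A =>
      IsLocalization.mk' (FractionRing A) q.1 q.2) := by
    intro z
    obtain ⟨x, y, h⟩ := IsLocalization.exists_mk'_eq (nonZeroDivisors A) z
    exact ⟨(x, y), h⟩
  exact h.countable

/-- reduction of an arbitrary complex point at a prime, general coefficients -/
theorem exists_point_reduction_gen {m : ℕ} (p : ℕ) [Fact p.Prime] {A : Type} [CommRing A]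
    [IsDomain A] [Countable A] (α : A →+* ℂ) (hα : Injective α) (β : A →+* ℤ_[p])
    (hβ : Injective β) (a : Fin m → ℂ) (ha : a ≠ 0) :
    ∃ (k : Type) (_ : Field k) (_ : CharP k p) (y₀ : Fin m → k), y₀ ≠ 0 ∧
      ∀ (d : ℕ) (F : Fin m → MvPolynomial (Fin m) A) (_ : ∀ i, (F i).IsHomogeneous d)
        (F₀ : Fin m → MvPolynomial (Fin m) (ZMod p))
        (_ : ∀ i, MvPolynomial.map ((PadicInt.toZMod).comp β) (F i) = F₀ i),
        (GoodAt (fun i => MvPolynomial.map (ZMod.castHom (dvd_refl p) k) (F₀ i)) y₀ →
          DMLgen (fun i => MvPolynomial.map α (F i)) a) ∧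
        ((∀ i, MvPolynomial.eval a (MvPolynomial.map α (F i)) = 0) →
          ∀ i, MvPolynomial.eval y₀
            (MvPolynomial.map (ZMod.castHom (dvd_refl p) k) (F₀ i)) = 0) := by
  classical
  have hcK₀ : Countable (FractionRing A) := countable_fractionRing A
  let β' : A →+* ℚ_[p] := (PadicInt.Coe.ringHom).comp β
  have hβ' : Injective β' := by
    intro x y h
    exact hβ (Subtype.ext h)
  let _ : Algebra (FractionRing A) ℂ := (IsFractionRing.lift hα : FractionRing A →+* ℂ).toAlgebra
  let _ : Algebra (FractionRing A) ℚ_[p] :=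
    (IsFractionRing.lift hβ' : FractionRing A →+* ℚ_[p]).toAlgebra
  have hαK : ∀ x : A, algebraMap (FractionRing A) ℂ (algebraMap A (FractionRing A) x) = α x :=
    fun x => IsFractionRing.lift_algebraMap hα x
  have hβK : ∀ x : A, algebraMap (FractionRing A) ℚ_[p] (algebraMap A (FractionRing A) x) = β' x :=
    fun x => IsFractionRing.lift_algebraMap hβ' x
  obtain ⟨r, t, ht, L, hL, haL⟩ := exists_tower_gen (FractionRing A) a
  obtain ⟨ι⟩ := exists_alg_embedding (FractionRing A) p r t ht
  have ha' : (fun i => (⟨a i, haL i⟩ : L)) ≠ 0 := by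
    intro h
    apply ha
    funext i
    exact congrArg Subtype.val (congrFun h i)
  have h := reduction_core p α β (K₁ := IntermediateField.adjoin (FractionRing A) (Set.range t))
    (L := L) (ι : IntermediateField.adjoin (FractionRing A) (Set.range t) →+* ℚ_[p])
    ((algebraMap (FractionRing A) (IntermediateField.adjoin (FractionRing A) (Set.range t))).comp
      (algebraMap A (FractionRing A)))
    (fun x => by
      have h1 := hβK x
      rw [← ι.commutes] at h1
      exact h1)
    (fun x => hαK x) (fun i => (⟨a i, haL i⟩ : L)) ha'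
  exact h

end Pool.Agent.Helper38.Sym
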