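import Mathlib
import Pool.Agent.Helper38.Sym.Dyn
import Pool.Agent.Helper38.Dml.ArithAt

/-!
# The Jacobian of the symmetric powers of `s ↦ 1 + b s⁻ᵈ` at periodic points
-/

set_option autoImplicit false

open Polynomial Finset Function

namespace Pool.Agent.Helper38.Sym

open Pool.Agent.Helper38.Dml

section deriv

variable {K : Type*} [Field K] {N : ℕ} (y v : Fin (N + 1) → K)

/-- the directional derivative -/
noncomputable def Dv (T : MvPolynomial (Fin (N + 1)) K) : K :=
  ∑ l, MvPolynomial.eval y (MvPolynomial.pderiv l T) * v l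

theorem Dv_zero : Dv y v 0 = 0 := by simp [Dv]

theorem Dv_add (S T : MvPolynomial (Fin (N + 1)) K) : Dv y v (S + T) = Dv y v S + Dv y v T := by
  simp only [Dv, map_add, add_mul, Finset.sum_add_distrib]

theorem Dv_mul (S T : MvPolynomial (Fin (N + 1)) K) :
    Dv y v (S * T) = MvPolynomial.eval y S * Dv y v T + Dv y v S * MvPolynomial.eval y T := by
  simp only [Dv, Finset.mul_sum, Finset.sum_mul, ← Finset.sum_add_distrib]
  apply Finset.sum_congr rfl
  intro l _
  rw [Derivation.leibniz]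
  simp only [smul_eq_mul, map_add, map_mul]
  ring

theorem Dv_C (c : K) : Dv y v (MvPolynomial.C c) = 0 := by
  simp [Dv]

theorem Dv_X (j : Fin (N + 1)) : Dv y v (MvPolynomial.X j) = v j := by
  classical
  simp [Dv, MvPolynomial.pderiv_X, Pi.single_apply]

theorem Dv_sum {ι : Type*} (s : Finset ι) (f : ι → MvPolynomial (Fin (N + 1)) K) :
    Dv y v (∑ i ∈ s, f i) = ∑ i ∈ s, Dv y v (f i) := by
  classical
  induction s using Finset.induction_on with
  | empty => simp [Dv_zero]
  | insert a s ha ih => rw [Finset.sum_insert ha, Finset.sum_insert ha, Dv_add, ih]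

/-- the directional derivative of the coefficients -/
noncomputable def DP (T : (MvPolynomial (Fin (N + 1)) K)[X]) : K[X] :=
  ∑ n ∈ T.support, monomial n (Dv y v (T.coeff n))

theorem DP_coeff (T : (MvPolynomial (Fin (N + 1)) K)[X]) (n : ℕ) :
    (DP y v T).coeff n = Dv y v (T.coeff n) := by
  rw [DP, finsetSum_coeff]
  simp only [coeff_monomial]
  rw [Finset.sum_ite_eq']
  split_ifs with h
  · rfl
  · rw [notMem_support_iff.1 h, Dv_zero]

theorem DP_mul (S T : (MvPolynomial (Fin (N + 1)) K)[X]) :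
    DP y v (S * T) = S.map (MvPolynomial.eval y) * DP y v T
      + DP y v S * T.map (MvPolynomial.eval y) := by
  ext n
  rw [DP_coeff, coeff_add, coeff_mul, coeff_mul, coeff_mul, Dv_sum, ← Finset.sum_add_distrib]
  apply Finset.sum_congr rfl
  intro x _
  rw [Dv_mul, coeff_map, coeff_map, DP_coeff, DP_coeff]

theorem DP_pol : DP y v (pol (MvPolynomial.X : Fin (N + 1) → MvPolynomial (Fin (N + 1)) K))
    = pol v := by
  ext n
  rw [DP_coeff]
  rcases Nat.lt_or_ge N n with hn | hn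
  · rw [pol_coeff_ge _ hn, pol_coeff_ge _ hn, Dv_zero]
  · rw [pol_coeff_lt _ (Nat.lt_succ_of_le hn), pol_coeff_lt _ (Nat.lt_succ_of_le hn), Dv_X]

end deriv

section main

variable {K : Type*} [Field K] {N : ℕ}

theorem pmap_Fs (d : ℕ) (ω b : K) (y : Fin (N + 1) → K) :
    pmap (Fs N d ω b) y = Fv d ω b y := by
  funext i
  rw [pmap, eval_Fs, Fv]

theorem tw_zero {R : Type*} [CommRing R] (ω : R) (y : Fin (N + 1) → R) : tw ω 0 y = y := by
  funext j
  simp [tw]

/-- if the Jacobian kills `v`, the polynomial of `y` divides that of `v` -/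
theorem dvd_of_mulVec {d : ℕ} (hd : 0 < d) {ω b : K} (hω : IsPrimitiveRoot ω d) (hb : b ≠ 0)
    (y v : Fin (N + 1) → K) (h : (pjac (Fs N d ω b) y).mulVec v = 0)
    (hcop : IsCoprime (pol y) (∏ i ∈ range (d - 1), pol (tw ω (i + 1) y))) :
    pol y ∣ pol v := by
  have hω' : IsPrimitiveRoot (MvPolynomial.C ω : MvPolynomial (Fin (N + 1)) K) d :=
    hω.map_of_injective (MvPolynomial.C_injective _ _)
  set XX : Fin (N + 1) → MvPolynomial (Fin (N + 1)) K := MvPolynomial.X with hXX
  have h1 : Lam b (fun j => Dv y v (Pc d (MvPolynomial.C ω) XX j)) = 0 := by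
    funext i
    have h2 := congrFun h i
    rw [Matrix.mulVec, dotProduct] at h2
    have h3 : ∑ l, pjac (Fs N d ω b) y i l * v l = Dv y v (Fs N d ω b i) := rfl
    rw [h3, Fs, Dv_sum] at h2
    rw [← h2, Lam]
    apply Finset.sum_congr rfl
    intro j _
    rw [Dv_mul, Dv_C, zero_mul, add_zero, MvPolynomial.eval_C]
  have h4 := Lam_injective hb h1
  have h5 : DP y v (Qp d (MvPolynomial.C ω) XX) = 0 := by
    ext n
    rw [DP_coeff, coeff_zero]
    by_cases hn : d ∣ n
    · obtain ⟨m, rfl⟩ := hn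
      rcases Nat.lt_or_ge N m with hm | hm
      · rw [coeff_eq_zero_of_natDegree_lt, Dv_zero]
        exact lt_of_le_of_lt (Qp_natDegree_le d _ _) (Nat.mul_lt_mul_of_pos_left hm hd)
      · exact congrFun h4 ⟨m, Nat.lt_succ_of_le hm⟩
    · rw [Qp_coeff_eq_zero hω' _ hn, Dv_zero]
  obtain ⟨e, rfl⟩ : ∃ e, d = e + 1 := ⟨d - 1, by omega⟩
  rw [Qp, Finset.prod_range_succ', tw_zero, DP_mul, DP_pol, pol_map, Polynomial.map_prod] at h5
  have h6 : ∀ i, (pol (tw (MvPolynomial.C ω) (i + 1) XX)).map (MvPolynomial.eval y)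
      = pol (tw ω (i + 1) y) := by
    intro i
    rw [pol_map]
    congr 1
    funext j
    simp [tw, hXX]
  simp only [h6] at h5
  have h7 : (fun j => MvPolynomial.eval y (XX j)) = y := by
    funext j
    simp [hXX]
  rw [h7] at h5
  rw [Nat.add_sub_cancel] at hcop
  apply hcop.dvd_of_dvd_mul_left
  rw [eq_neg_of_add_eq_zero_left h5]
  exact (dvd_mul_left _ _).neg_right

/-- the Jacobian is invertible at the periodic points -/
theorem det_ne_zero [IsAlgClosed K] {d : ℕ} (hd : 0 < d) (hdK : (d : K) ≠ 0) {ω ζ : K}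
    (hω : IsPrimitiveRoot ω d) (hζ : ζ ^ d = 1) (hζ1 : ζ ≠ 1) {y : Fin (N + 1) → K} (hy : y ≠ 0)
    (hper : y ∈ periodicPts (Fv d ω (ζ - 1))) : (pjac (Fs N d ω (ζ - 1)) y).det ≠ 0 := by
  have hb : ζ - 1 ≠ 0 := sub_ne_zero.2 hζ1
  have hω0 : ω ≠ 0 := hω.ne_zero hd.ne'
  have hζ0 : ζ ≠ 0 := by
    rintro rfl
    rw [zero_pow hd.ne'] at hζ
    exact zero_ne_one hζ
  have hz : ∀ o, zr y o → o ∈ periodicPts (fm d (ζ - 1)) :=
    fun o ho => periodic_of_zr hd hω hb hy hper ho
  have hlast : y (Fin.last N) ≠ 0 := fun h =>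
    none_not_periodic hζ hζ0 (hz none h)
  have hzero : (pol y).eval 0 ≠ 0 := fun h =>
    zero_not_periodic hζ hζ0 (hz (some 0) h)
  have hdeg : (pol y).natDegree = N := by
    apply le_antisymm (pol_natDegree_le y)
    apply le_natDegree_of_ne_zero
    have := pol_coeff_fin y (Fin.last N)
    rw [Fin.val_last] at this
    rw [this]
    exact hlast
  have hcop : IsCoprime (pol y) (∏ i ∈ range (d - 1), pol (tw ω (i + 1) y)) := by
    refine (Polynomial.isCoprime_iff_aeval_ne_zero_of_isAlgClosed K K _ _).2 ?_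
    intro s
    by_contra hcon
    push Not at hcon
    obtain ⟨h1, h2⟩ := hcon
    simp only [coe_aeval_eq_eval] at h1 h2
    rw [eval_prod, Finset.prod_eq_zero_iff] at h2
    obtain ⟨i, hi, h2⟩ := h2
    rw [mem_range] at hi
    rw [pol_tw, eval_comp] at h2
    simp only [eval_mul, eval_C, eval_X] at h2
    have hs0 : s ≠ 0 := by
      rintro rfl
      exact hzero h1
    have h3 := hz (some s) h1
    have h4 := hz (some (ω ^ (i + 1) * s)) h2
    have h5 : fm d (ζ - 1) (some s) = fm d (ζ - 1) (some (ω ^ (i + 1) * s)) := by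
      rw [fm_some _ _ hs0, fm_some _ _ (mul_ne_zero (pow_ne_zero _ hω0) hs0), mul_pow, ← pow_mul,
        mul_comm (i + 1) d, pow_mul, hω.pow_eq_one, one_pow, one_mul]
    have h6 := (bijOn_periodicPts (fm d (ζ - 1))).injOn h3 h4 h5
    rw [Option.some_inj] at h6
    have h7 : ω ^ (i + 1) = 1 := by
      have : (ω ^ (i + 1) - 1) * s = 0 := by linear_combination -h6
      rcases mul_eq_zero.1 this with h | h
      · exact sub_eq_zero.1 h
      · exact absurd h hs0
    have h8 := Nat.le_of_dvd (by omega) ((hω.pow_eq_one_iff_dvd _).1 h7)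
    omega
  intro hdet
  obtain ⟨v, hv, hv0⟩ := Matrix.exists_mulVec_eq_zero_iff.2 hdet
  obtain ⟨c, hc⟩ := dvd_of_mulVec hd hω hb y v hv0 hcop
  have hpy : pol y ≠ 0 := pol_ne_zero hy
  have hcdeg : c.natDegree = 0 := by
    have h1 := pol_natDegree_le v
    by_cases hc0 : c = 0
    · rw [hc0]; simp
    · rw [hc, natDegree_mul hpy hc0, hdeg] at h1
      omega
  rw [natDegree_eq_zero] at hcdeg
  obtain ⟨l, rfl⟩ := hcdeg
  have hvl : v = l • y := by
    apply pol_ext
    rw [hc]
    ext n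
    rw [coeff_mul_C]
    rcases Nat.lt_or_ge N n with hn | hn
    · rw [pol_coeff_ge _ hn, pol_coeff_ge _ hn, zero_mul]
    · rw [pol_coeff_lt _ (Nat.lt_succ_of_le hn), pol_coeff_lt _ (Nat.lt_succ_of_le hn),
        Pi.smul_apply, smul_eq_mul, mul_comm]
  rw [hvl, Matrix.mulVec_smul, pjac_mulVec (fun i => Fs_homog d ω (ζ - 1) i), pmap_Fs] at hv0
  rcases smul_eq_zero.1 hv0 with h | h
  · apply hv
    rw [hvl, h, zero_smul]
  · rcases smul_eq_zero.1 h with h | h
    · exact hdK h
    · exact Fv_ne_zero hd hω hb hy h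

/-- the good property at every point -/
theorem goodAt_Fs [IsAlgClosed K] {d : ℕ} (hd : 0 < d) (hdK : (d : K) ≠ 0) {ω ζ : K}
    (hω : IsPrimitiveRoot ω d) (hζ : ζ ^ d = 1) (hζ1 : ζ ≠ 1) {y : Fin (N + 1) → K}
    (hy : y ≠ 0) : GoodAt (Fs N d ω (ζ - 1)) y := by
  have hF : pmap (Fs N d ω (ζ - 1)) = Fv d ω (ζ - 1) := by
    funext z
    exact pmap_Fs d ω (ζ - 1) z
  have hne : ∀ n, (Fv d ω (ζ - 1))^[n] y ≠ 0 := by
    intro n
    induction n with
    | zero => exact hy
    | succ n ih =>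
      rw [iterate_succ_apply']
      exact Fv_ne_zero hd hω (sub_ne_zero.2 hζ1) ih
  intro n
  rw [hF]
  exact ⟨hne n, fun hper => det_ne_zero hd hdK hω hζ hζ1 (hne n) hper⟩

end main

end Pool.Agent.Helper38.Sym
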