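import Mathlib
import Pool.Agent.Helper38.Sym.Descend
import Pool.Agent.Helper38.Sym.Descent
import Pool.Agent.Helper38.Sym.GenPoint
import Pool.Agent.Helper38.Sym.Jac

/-!
# The full property for a congruence class, general primes and coefficients
-/

set_option autoImplicit false

open Function Finset

namespace Pool.Agent.Helper38.Sym

open Pool.Agent.Helper38.Dml

theorem exists_rootOfUnity (p d : ℕ) [Fact p.Prime] (h : Nat.gcd d (p - 1) ≠ 1) :
    ∃ ζ : ZMod p, ζ ^ d = 1 ∧ ζ ≠ 1 := by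
  obtain ⟨g, hg⟩ := IsCyclic.exists_ofOrder_eq_natCard (α := (ZMod p)ˣ)
  rw [Nat.card_eq_fintype_card, ZMod.card_units p] at hg
  have h1 : IsPrimitiveRoot ((g : (ZMod p)ˣ) : ZMod p) (p - 1) := by
    rw [IsPrimitiveRoot.coe_units_iff, ← hg]
    exact IsPrimitiveRoot.orderOf g
  obtain ⟨e, he⟩ := Nat.gcd_dvd_right d (p - 1)
  have hp : 0 < p - 1 := by
    have := (Fact.out : p.Prime).two_le
    omega
  have h2 := h1.pow hp (a := e) (b := Nat.gcd d (p - 1)) (by
    rw [mul_comm]; exact he)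
  refine ⟨(g : ZMod p) ^ e, ?_, ?_⟩
  · exact ((h2.pow_eq_one_iff_dvd d).2 (Nat.gcd_dvd_left _ _))
  · exact h2.ne_one (by
      have h3 : Nat.gcd d (p - 1) ≠ 0 := by
        intro h4
        have := (Nat.gcd_eq_zero_iff.1 h4).2
        omega
      omega)

/-- the class, countable domains -/
theorem full_gen_aux (N d p : ℕ) [Fact p.Prime] (hd : 0 < d) (hpd : ¬ p ∣ d)
    (hg : Nat.gcd d (p - 1) ≠ 1) :
    ∃ F₀ : Fin (N + 1) → MvPolynomial (Fin (N + 1)) (ZMod p), (∀ i, (F₀ i).IsHomogeneous d) ∧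
      ∀ (A : Type) [CommRing A] [IsDomain A] [Countable A] (α : A →+* ℂ) (β : A →+* ℤ_[p]),
        Injective α → Injective β →
        ∀ F : Fin (N + 1) → MvPolynomial (Fin (N + 1)) A, (∀ i, (F i).IsHomogeneous d) →
          (∀ i, MvPolynomial.map (PadicInt.toZMod.comp β) (F i) = F₀ i) →
          (∀ x : Fin (N + 1) → ℂ,
            (∀ i, MvPolynomial.eval x (MvPolynomial.map α (F i)) = 0) → x = 0) ∧
          ∀ a : Fin (N + 1) → ℂ, a ≠ 0 → DMLgen (fun i => MvPolynomial.map α (F i)) a := by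
  obtain ⟨ζ, hζ, hζ1⟩ := exists_rootOfUnity p d hg
  obtain ⟨F₀, hF₀, hF₀'⟩ := exists_Fs_prime N d p hd hpd (ζ - 1)
  refine ⟨F₀, hF₀, fun A _ _ _ α β hα hβ F hF hFF => ?_⟩
  have key : ∀ (k : Type) [Field k] [CharP k p] (y : Fin (N + 1) → k), y ≠ 0 →
      GoodAt (fun i => MvPolynomial.map (ZMod.castHom (dvd_refl p) k) (F₀ i)) y := by
    intro k _ _ y hy
    let K := AlgebraicClosure k
    have hcK : CharP K p := charP_of_injective_algebraMap (algebraMap k K).injective p
    let φ : ZMod p →+* k := ZMod.castHom (dvd_refl p) k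
    let ψ : k →+* K := algebraMap k K
    let _ : Algebra (ZMod p) K := (ψ.comp φ).toAlgebra
    obtain ⟨ω, hω, h0⟩ := hF₀' K
    apply goodAt_descend ψ
    have h1 : (fun i => MvPolynomial.map ψ (MvPolynomial.map φ (F₀ i)))
        = Fs N d ω ((ψ.comp φ) ζ - 1) := by
      funext i
      have h2 := h0 i
      rw [map_sub, map_one] at h2
      rw [MvPolynomial.map_map]
      exact h2
    rw [h1]
    apply goodAt_Fs hd _ hω
    · rw [← map_pow, hζ, map_one]
    · intro h2
      exact hζ1 ((ψ.comp φ).injective (by rw [h2, map_one]))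
    · intro h2
      apply hy
      funext i
      have h3 := congrFun h2 i
      exact (map_eq_zero _).1 h3
    · intro h2
      exact hpd ((CharP.cast_eq_zero_iff K p d).1 h2)
  refine ⟨fun x hx => ?_, fun a ha => ?_⟩
  · by_contra hx0
    obtain ⟨k, _, _, y₀, hy₀, h1⟩ := exists_point_reduction_gen p α hα β hβ x hx0
    have h2 := (h1 d F hF F₀ hFF).2 hx
    have h3 := (key k y₀ hy₀ 1).1
    apply h3
    funext i
    exact h2 i
  · obtain ⟨k, _, _, y₀, hy₀, h1⟩ := exists_point_reduction_gen p α hα β hβ a ha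
    exact (h1 d F hF F₀ hFF).1 (key k y₀ hy₀)

/-- forms over a ring come from a countable subring -/
theorem exists_countable_subring {A : Type} [CommRing A] {m : ℕ}
    (F : Fin m → MvPolynomial (Fin m) A) :
    ∃ A' : Subring A, Countable A' ∧ ∃ G : Fin m → MvPolynomial (Fin m) A',
      ∀ i, MvPolynomial.map A'.subtype (G i) = F i := by
  let ι := Fin m × (Fin m →₀ ℕ)
  let c : ι → A := fun q => MvPolynomial.coeff q.2 (F q.1)
  let ev : MvPolynomial ι ℤ →+* A := MvPolynomial.eval₂Hom (Int.castRingHom A) c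
  have h1 : ∀ i, F i ∈ Set.range (MvPolynomial.map (σ := Fin m) ev.range.subtype) := by
    intro i
    rw [MvPolynomial.mem_range_map_iff_coeffs_subset]
    intro x hx
    rw [mem_coe, MvPolynomial.mem_coeffs_iff] at hx
    obtain ⟨e, _, rfl⟩ := hx
    exact ⟨⟨MvPolynomial.coeff e (F i), ⟨MvPolynomial.X (i, e), by simp [ev, c]⟩⟩, rfl⟩
  choose G hG using h1
  refine ⟨ev.range, ?_, G, hG⟩
  have h2 : Countable (MvPolynomial ι ℤ) := by
    rw [← Cardinal.mk_le_aleph0_iff]
    refine MvPolynomial.cardinalMk_le_max.trans ?_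
    simp
  exact (RingHom.rangeRestrict_surjective ev).countable

/-- **The full property for a congruence class, general primes and coefficients.** -/
theorem full_gen (N d p : ℕ) [Fact p.Prime] (hd : 0 < d) (hpd : ¬ p ∣ d)
    (hg : Nat.gcd d (p - 1) ≠ 1) :
    ∃ F₀ : Fin (N + 1) → MvPolynomial (Fin (N + 1)) (ZMod p), (∀ i, (F₀ i).IsHomogeneous d) ∧
      ∀ (A : Type) [CommRing A] (α : A →+* ℂ) (β : A →+* ℤ_[p]),
        Injective α → Injective β →
        ∀ F : Fin (N + 1) → MvPolynomial (Fin (N + 1)) A, (∀ i, (F i).IsHomogeneous d) →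
          (∀ i, MvPolynomial.map (PadicInt.toZMod.comp β) (F i) = F₀ i) →
          (∀ x : Fin (N + 1) → ℂ,
            (∀ i, MvPolynomial.eval x (MvPolynomial.map α (F i)) = 0) → x = 0) ∧
          ∀ a : Fin (N + 1) → ℂ, a ≠ 0 → DMLgen (fun i => MvPolynomial.map α (F i)) a := by
  obtain ⟨F₀, hF₀, h⟩ := full_gen_aux N d p hd hpd hg
  refine ⟨F₀, hF₀, fun A _ α β hα hβ F hF hFF => ?_⟩
  obtain ⟨A', hc, G, hG⟩ := exists_countable_subring F
  have hinj : Injective A'.subtype := Subtype.val_injective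
  have hdom : IsDomain A := hα.isDomain α
  have hdom' : IsDomain A' := hinj.isDomain A'.subtype
  have h1 : ∀ i, MvPolynomial.map (α.comp A'.subtype) (G i) = MvPolynomial.map α (F i) := by
    intro i
    rw [← hG i, MvPolynomial.map_map]
  have h2 : ∀ i, MvPolynomial.map (PadicInt.toZMod.comp (β.comp A'.subtype)) (G i) = F₀ i := by
    intro i
    rw [← hFF i, ← hG i, MvPolynomial.map_map]
    rfl
  have h3 := h A' (α.comp A'.subtype) (β.comp A'.subtype) (hα.comp hinj) (hβ.comp hinj) G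
    (fun i => MvPolynomial.IsHomogeneous.of_map hinj (by rw [hG i]; exact hF i)) h2
  simpa only [h1] using h3

end Pool.Agent.Helper38.Sym
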